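import Pool.Agent.Helper76.TC.Goals

/-!
# Project TC (MP_ccd65d_gt), packet GE
-/

set_option autoImplicit false

open Set Topology Filter

namespace Pool.Agent.Helper71.TC.GE

open Pool.Agent.Helper50.CT (rv Cov Sh StmtLAB)
open Pool.Agent.Helper76.TC

section
variable {n : ℕ} {A e D : ℝ} {X T : Type} [MetricSpace X] [MetricSpace T]
  [AddAction (Fin n → ℤ) X] {π : X → T} {p q : X}

lemma lip (hc : Cov n X T π) (v w : X) :
    |dist (π p) (π v) - dist (π p) (π w)| ≤ dist v w := by
  have h1 : dist (π v) (π w) ≤ dist v w := by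
    have := hc.le v w 0
    rwa [zero_vadd] at this
  have h2 : dist (π p) (π v) ≤ dist (π p) (π w) + dist (π v) (π w) := by
    have := dist_triangle (π p) (π w) (π v)
    rwa [dist_comm (π w) (π v)] at this
  have h3 : dist (π p) (π w) ≤ dist (π p) (π v) + dist (π v) (π w) := dist_triangle _ _ _
  rw [abs_le]
  constructor <;> linarith

lemma cont (hc : Cov n X T π) : Continuous fun v : X => dist (π p) (π v) := by
  have : LipschitzWith 1 fun v : X => dist (π p) (π v) := by
    apply LipschitzWith.of_dist_le_mul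
    intro v w
    rw [Real.dist_eq]
    simpa using lip (p := p) hc v w
  exact this.continuous

/-- translate a difference of labels to `y` -/
lemma diff (hGR : S_GR) (hc : Cov n X T π) (P : ℝ → Prop) (y : X) (β β' : Fin n → ℤ)
    (h : JoinedIn (lv π p P) (β +ᵥ y) (β' +ᵥ y)) :
    JoinedIn (lv π p P) y ((β' - β) +ᵥ y) := by
  have h1 := (hGR n X T π hc p P).1 _ _ (-β) h
  rw [vadd_vadd, vadd_vadd, neg_add_cancel, zero_vadd] at h1
  have h2 : -β + β' = β' - β := by abel
  rwa [h2] at h1

end

theorem t (_hLP : S_LP) (hCH : S_CH) (hGR : S_GR) (hLAB : StmtLAB) : S_GE := by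
  intro n A e D X T _ _ _ π p q hS y k
  have hc := hS.cov
  have hA := hS.A1
  have he := hS.epos
  have hAe : e ≤ A * e := by nlinarith
  set t : ℝ := dist (π p) (π y) with ht
  set PL : ℝ → Prop := fun s => s < t + 5 * A * e with hPL
  set PR : ℝ → Prop := fun s => t - 5 * A * e < s with hPR
  set G : AddSubgroup (Fin n → ℤ) := AddSubgroup.closure
    ({k | JoinedIn (lv π p PL) y (k +ᵥ y)} ∪ {k | JoinedIn (lv π p PR) y (k +ᵥ y)}) with hG
  have hGL : ∀ k, JoinedIn (lv π p PL) y (k +ᵥ y) → k ∈ G := fun k hk =>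
    AddSubgroup.subset_closure (Or.inl hk)
  have hGR' : ∀ k, JoinedIn (lv π p PR) y (k +ᵥ y) → k ∈ G := fun k hk =>
    AddSubgroup.subset_closure (Or.inr hk)
  let Lab : X → (Fin n → ℤ) → Prop := fun w β =>
    (dist (π p) (π w) < t + e ∧ JoinedIn (lv π p PL) w (β +ᵥ y)) ∨
    (t - e < dist (π p) (π w) ∧ JoinedIn (lv π p PR) w (β +ᵥ y))
  have hex : ∀ w ∈ (univ : Set X), ∃ β, Lab w β := by
    intro w _
    obtain ⟨β, hβ⟩ := hCH n A e D X T π p q hS w y
    refine ⟨β, ?_⟩
    rcases le_total (dist (π p) (π w)) t with h | h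
    · left
      refine ⟨by linarith, hβ.mono ?_⟩
      intro v hv
      have hv2 := hv.2
      change dist (π p) (π v) < t + 5 * A * e
      rw [← ht, max_eq_right h] at hv2
      nlinarith
    · right
      refine ⟨by linarith, hβ.mono ?_⟩
      intro v hv
      have hv1 := hv.1
      change t - 5 * A * e < dist (π p) (π v)
      rw [← ht, min_eq_right h] at hv1
      nlinarith
  have hmix : ∀ (w : X) (β β' : Fin n → ℤ), dist (π p) (π w) < t + e → t - e < dist (π p) (π w) →
      JoinedIn (lv π p PL) w (β +ᵥ y) → JoinedIn (lv π p PR) w (β' +ᵥ y) → β' - β ∈ G := by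
    intro w β β' h1 h2 h3 h4
    obtain ⟨β'', hβ⟩ := hCH n A e D X T π p q hS w y
    have hL : JoinedIn (lv π p PL) w (β'' +ᵥ y) := by
      refine hβ.mono ?_
      intro v hv
      have hv2 := hv.2
      change dist (π p) (π v) < t + 5 * A * e
      rw [← ht] at hv2
      have : max (dist (π p) (π w)) t ≤ t + e := max_le (by linarith) (by linarith)
      nlinarith
    have hR : JoinedIn (lv π p PR) w (β'' +ᵥ y) := by
      refine hβ.mono ?_
      intro v hv
      have hv1 := hv.1
      change t - 5 * A * e < dist (π p) (π v)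
      rw [← ht] at hv1
      have : t - e ≤ min (dist (π p) (π w)) t := le_min (by linarith) (by linarith)
      nlinarith
    have g1 := hGL _ (diff hGR hc PL y β β'' (h3.symm.trans hL))
    have g2 := hGR' _ (diff hGR hc PR y β'' β' (hR.symm.trans h4))
    have := G.add_mem g1 g2
    have e1 : β'' - β + (β' - β'') = β' - β := by abel
    rwa [e1] at this
  have huniq : ∀ w ∈ (univ : Set X), ∀ β β', Lab w β → Lab w β' → β' - β ∈ G := by
    intro w _ β β' h h'
    rcases h with ⟨h1, h2⟩ | ⟨h1, h2⟩ <;> rcases h' with ⟨h3, h4⟩ | ⟨h3, h4⟩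
    · exact hGL _ (diff hGR hc PL y β β' (h2.symm.trans h4))
    · exact hmix w β β' h1 h3 h2 h4
    · have := hmix w β' β h3 h1 h4 h2
      have := G.neg_mem this
      rwa [neg_sub] at this
    · exact hGR' _ (diff hGR hc PR y β β' (h2.symm.trans h4))
  have hloc : ∀ w ∈ (univ : Set X), ∀ β, Lab w β → ∀ᶠ v in 𝓝 w, Lab v β := by
    intro w _ β h
    have hct := cont (p := p) hc
    have hball : ∀ᶠ v in 𝓝 w, dist v w < e := Metric.ball_mem_nhds w he
    rcases h with ⟨h1, h2⟩ | ⟨h1, h2⟩
    · have ho : ∀ᶠ v in 𝓝 w, dist (π p) (π v) < t + e :=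
        (isOpen_lt hct continuous_const).mem_nhds h1
      filter_upwards [hball, ho] with v hv1 hv2
      left
      refine ⟨hv2, JoinedIn.trans ?_ h2⟩
      refine (hS.turn v w).mono ?_
      intro z hz
      change dist (π p) (π z) < t + 5 * A * e
      have hz1 : dist z v ≤ A * dist v w := hz
      have hz2 := lip (p := p) hc z v
      have hz3 := (abs_le.mp hz2).2
      have hz4 : A * dist v w ≤ A * e := by
        apply mul_le_mul_of_nonneg_left hv1.le
        linarith
      linarith
    · have ho : ∀ᶠ v in 𝓝 w, t - e < dist (π p) (π v) :=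
        (isOpen_lt continuous_const hct).mem_nhds h1
      filter_upwards [hball, ho] with v hv1 hv2
      right
      refine ⟨hv2, JoinedIn.trans ?_ h2⟩
      refine (hS.turn v w).mono ?_
      intro z hz
      change t - 5 * A * e < dist (π p) (π z)
      have hz1 : dist z v ≤ A * dist v w := hz
      have hz2 := lip (p := p) hc z v
      have hz3 := (abs_le.mp hz2).1
      have hz4 : A * dist v w ≤ A * e := by
        apply mul_le_mul_of_nonneg_left hv1.le
        linarith
      linarith
  have hj : JoinedIn (univ : Set X) y (k +ᵥ y) := (hS.turn y (k +ᵥ y)).mono (subset_univ _)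
  have l0 : Lab y 0 := by
    left
    refine ⟨by linarith, ?_⟩
    rw [zero_vadd]
    apply JoinedIn.refl
    change dist (π p) (π y) < t + 5 * A * e
    linarith
  have lk : Lab (k +ᵥ y) k := by
    left
    have hi : dist (π p) (π (k +ᵥ y)) = t := by rw [hc.inv, ht]
    refine ⟨by linarith, ?_⟩
    apply JoinedIn.refl
    change dist (π p) (π (k +ᵥ y)) < t + 5 * A * e
    linarith
  have := hLAB X (Fin n → ℤ) G univ Lab hex huniq hloc y (k +ᵥ y) 0 k hj l0 lk
  rwa [sub_zero] at this

end Pool.Agent.Helper71.TC.GE
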